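import Pool.Agent.Helper86.FS.StartGoals
import Pool.Agent.Helper86.FS.StartEqv

/-! Project FS (MP_75608d_al), part START: E1A (fixed sets of disturbing and of predicted pairs). -/

set_option linter.unusedVariables false
set_option linter.unusedSectionVars false

namespace Pool.Agent.Helper76.FS

open Equiv Pool.Agent.Helper3.AK Pool.Agent.Helper86.FS

variable {n b m M : ℕ}

/-- the value of a special pair on `T2` determines the coincidences at the indices in `D` -/
noncomputable def uh (T2 : Finset (Fin M)) (ω : Om n b m) (x : ↥T2 → Fin n × Fin n) :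
    Ix b m → Option (Fin b) := by
  classical
  exact fun e =>
    if h : ∃ j : ↥T2, (x j).1 = ω.1 e.1 e.2.1 then tok (ω.2 e.2.2) (x h.choose).2
    else if h' : ∃ j : ↥T2, (x j).2 = ω.1 e.1 e.2.1 then tok (ω.2 e.2.2) (x h'.choose).1
    else U ω e

/-- the pairs with a predicted coincidence -/
noncomputable def Vs (S : Pd b m) (ω : Om n b m) (u : Ix b m → Option (Fin b)) :
    Finset (Fin n × Fin n) := by
  classical
  exact (Finset.univ.sigma fun e : Ix b m => S e u).image fun q =>
    (ω.1 q.1.1 q.1.2.1, ω.2 q.1.2.2 q.2)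

theorem card_Vs (S : Pd b m) (ω : Om n b m) (u : Ix b m → Option (Fin b)) (σ : ℝ) (hσ : 0 ≤ σ)
    (hS : ∀ e v, ((S e v).card : ℝ) ≤ σ) : ((Vs S ω u).card : ℝ) ≤ (m : ℝ) ^ 2 * b * σ := by
  classical
  have h1 : (Vs S ω u).card ≤ ∑ e : Ix b m, (S e u).card := by
    unfold Vs
    refine Finset.card_image_le.trans ?_
    rw [Finset.card_sigma]
  have h2 : ((Vs S ω u).card : ℝ) ≤ ∑ e : Ix b m, ((S e u).card : ℝ) := by
    exact_mod_cast h1
  refine h2.trans ?_
  refine (Finset.sum_le_sum fun e _ => hS e u).trans ?_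
  rw [Finset.sum_const, nsmul_eq_mul]
  have h3 : ((Finset.univ : Finset (Ix b m)).card : ℝ) = (m : ℝ) ^ 2 * b := by
    rw [Finset.card_univ, Fintype.card_prod, Fintype.card_prod, Fintype.card_fin, Fintype.card_fin]
    push_cast
    ring
  exact le_of_eq (by rw [h3])

theorem tau_symm {τ : Perm (Fin n)} {c : Pts n M} (hτ : IsTau τ c) (v : Fin n) : τ (τ v) = v := by
  by_cases h : v ∈ Set.range c
  · obtain ⟨⟨j, s⟩, rfl⟩ := h
    rw [hτ.1, hτ.1, Bool.not_not]
  · rw [hτ.2 v h, hτ.2 v h]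

/-- the coincidences after the move -/
theorem U_mv (y τ w : Perm (Fin n)) (ω : Om n b m) (e : Ix b m) :
    U (mv y τ (dact w ω)) e = tok (ω.2 e.2.2) ((y * w)⁻¹ (τ⁻¹ ((y * w) (ω.1 e.1 e.2.1)))) := by
  unfold U
  have h1 : (mv y τ (dact w ω)).2 e.2.2 = (ω.2 e.2.2).trans (τ * y * w).toEmbedding := rfl
  have h2 : (mv y τ (dact w ω)).1 e.1 e.2.1 = (y * w) (ω.1 e.1 e.2.1) := rfl
  rw [h1, h2, tok_trans]
  congr 1

theorem pq_fst (c : Pts n M) (v : Perm (Fin n)) (j : Fin M) :
    v (pq c v j).1 = c (j, false) := v.apply_symm_apply _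

theorem pq_snd (c : Pts n M) (v : Perm (Fin n)) (j : Fin M) :
    v (pq c v j).2 = c (j, true) := v.apply_symm_apply _

/-- outside of the special places nothing changes -/
theorem sw_off {τ : Perm (Fin n)} {c : Pts n M} (hτ : IsTau τ c) (v : Perm (Fin n)) (P : Fin n)
    (h : ∀ j, (pq c v j).1 ≠ P ∧ (pq c v j).2 ≠ P) : v⁻¹ (τ⁻¹ (v P)) = P := by
  have h1 : v P ∉ Set.range c := by
    rintro ⟨⟨j, s⟩, h2⟩
    cases s
    · refine (h j).1 (v.injective ?_)
      rw [pq_fst, h2]
    · refine (h j).2 (v.injective ?_)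
      rw [pq_snd, h2]
  have h2 : τ⁻¹ (v P) = v P := by
    rw [Perm.inv_eq_iff_eq]
    exact (hτ.2 _ h1).symm
  rw [h2]
  exact v.symm_apply_apply P

theorem sw_fst {τ : Perm (Fin n)} {c : Pts n M} (hτ : IsTau τ c) (v : Perm (Fin n)) (j : Fin M) :
    v⁻¹ (τ⁻¹ (v (pq c v j).1)) = (pq c v j).2 := by
  rw [pq_fst]
  have h2 : τ⁻¹ (c (j, false)) = c (j, true) := by
    rw [Perm.inv_eq_iff_eq]
    exact (hτ.1 j true).symm
  rw [h2]
  rfl

theorem sw_snd {τ : Perm (Fin n)} {c : Pts n M} (hτ : IsTau τ c) (v : Perm (Fin n)) (j : Fin M) :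
    v⁻¹ (τ⁻¹ (v (pq c v j).2)) = (pq c v j).1 := by
  rw [pq_snd]
  have h2 : τ⁻¹ (c (j, true)) = c (j, false) := by
    rw [Perm.inv_eq_iff_eq]
    exact (hτ.1 j false).symm
  rw [h2]
  rfl

theorem pq_inj1 (c : Pts n M) (v : Perm (Fin n)) (j j' : Fin M)
    (h : (pq c v j).1 = (pq c v j').1) : j = j' := by
  have h1 := congrArg v h
  rw [pq_fst, pq_fst] at h1
  exact congrArg Prod.fst (c.injective h1)

theorem pq_inj2 (c : Pts n M) (v : Perm (Fin n)) (j j' : Fin M)
    (h : (pq c v j).2 = (pq c v j').2) : j = j' := by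
  have h1 := congrArg v h
  rw [pq_snd, pq_snd] at h1
  exact congrArg Prod.fst (c.injective h1)

theorem pq_ne (c : Pts n M) (v : Perm (Fin n)) (j j' : Fin M) :
    (pq c v j).1 ≠ (pq c v j').2 := by
  intro h
  have h1 := congrArg v h
  rw [pq_fst, pq_snd] at h1
  have h2 := congrArg Prod.snd (c.injective h1)
  exact absurd h2 (by simp)

/-- a pair which is neither disturbing nor one of `T2` does not change the coincidences in `D` -/
theorem quiet (D : Finset (Ix b m)) (ω : Om n b m) (p : Fin n × Fin n) (hp : p.1 ≠ p.2)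
    (h : p ∉ W2 D ω) (e : Ix b m) (he : e ∈ D) :
    (ω.1 e.1 e.2.1 = p.1 → tok (ω.2 e.2.2) p.2 = U ω e) ∧
    (ω.1 e.1 e.2.1 = p.2 → tok (ω.2 e.2.2) p.1 = U ω e) := by
  rw [mem_W2] at h
  by_cases h0 : p ∈ W0 D ω
  · rw [mem_W0] at h0
    obtain ⟨e0, a0, h1, h2, h3, h4, h5, h6, h7⟩ := h0
    constructor
    · intro hP
      have h8 : e.1 = e0.1 := h4 _ _ hP
      have h9 : e.2.1 = e0.2.1 := by
        apply (ω.1 e0.1).injective
        rw [h2, ← hP, h8]
      have h10 : e.2.2 ≠ e0.2.2 := by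
        intro h11
        apply h1
        have : e = e0 := Prod.ext h8 (Prod.ext h9 h11)
        rw [← this]
        exact he
      have h12 : tok (ω.2 e.2.2) p.2 = none := by
        rw [tok_eq_none]
        intro a' h13
        exact h10 (h7 _ _ h13)
      have h14 : U ω e = none := by
        unfold U
        rw [tok_eq_none, hP]
        intro a'
        exact h5 _ _
      rw [h12, h14]
    · intro hP
      exact absurd hP (h6 _ _)
  · have h1 : ¬ ((∃ i a, ω.2 i a = p.1) ∨ ∃ i a, ω.2 i a = p.2) ∨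
        ¬ ((∃ i a, ω.1 i a = p.1) ∨ ∃ i a, ω.1 i a = p.2) := by
      by_contra h2
      push_neg at h2
      apply h
      refine ⟨⟨hp, ?_, ?_⟩, h0⟩
      · by_contra h3
        exact absurd h2.2 (by push_neg at h3 ⊢; tauto)
      · by_contra h3
        exact absurd h2.1 (by push_neg at h3 ⊢; tauto)
    rcases h1 with h1 | h1
    · push_neg at h1
      constructor
      · intro hP
        have h12 : tok (ω.2 e.2.2) p.2 = none := by
          rw [tok_eq_none]
          intro a'
          exact h1.2 _ _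
        have h14 : U ω e = none := by
          unfold U
          rw [tok_eq_none, hP]
          intro a'
          exact h1.1 _ _
        rw [h12, h14]
      · intro hP
        have h12 : tok (ω.2 e.2.2) p.1 = none := by
          rw [tok_eq_none]
          intro a'
          exact h1.1 _ _
        have h14 : U ω e = none := by
          unfold U
          rw [tok_eq_none, hP]
          intro a'
          exact h1.2 _ _
        rw [h12, h14]
    · push_neg at h1
      constructor
      · intro hP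
        exact absurd hP (h1.1 _ _)
      · intro hP
        exact absurd hP (h1.2 _ _)

/-- the coincidences in `D` after the move are a function of the special pairs in `T2` -/
theorem uh_eq {τ : Perm (Fin n)} {c : Pts n M} (hτ : IsTau τ c) (y w : Perm (Fin n))
    (D : Finset (Ix b m)) (ω : Om n b m) (T2 : Finset (Fin M))
    (hT : cw c (y * w) (W2 D ω) = T2) (e : Ix b m) (he : e ∈ D) :
    U (mv y τ (dact w ω)) e = uh T2 ω (fun j => pq c (y * w) j) e := by
  classical
  rw [U_mv]
  unfold uh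
  by_cases h : ∃ j : ↥T2, (pq c (y * w) j).1 = ω.1 e.1 e.2.1
  · rw [dif_pos h]
    have h1 : (pq c (y * w) (h.choose : ↥T2)).1 = ω.1 e.1 e.2.1 := h.choose_spec
    have h2 := sw_fst hτ (y * w) (h.choose : ↥T2)
    rw [h1] at h2
    rw [h2]
  · rw [dif_neg h]
    by_cases h' : ∃ j : ↥T2, (pq c (y * w) j).2 = ω.1 e.1 e.2.1
    · rw [dif_pos h']
      have h1 : (pq c (y * w) (h'.choose : ↥T2)).2 = ω.1 e.1 e.2.1 := h'.choose_spec
      have h2 := sw_snd hτ (y * w) (h'.choose : ↥T2)
      rw [h1] at h2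
      rw [h2]
    · rw [dif_neg h']
      by_cases h2 : ∃ j : Fin M, (pq c (y * w) j).1 = ω.1 e.1 e.2.1
      · obtain ⟨j, hj⟩ := h2
        have hjT : j ∉ T2 := fun h3 => h ⟨⟨j, h3⟩, hj⟩
        rw [← hT, mem_cw] at hjT
        rw [← hj, sw_fst hτ]
        exact (quiet D ω _ (pq_ne c _ j j) hjT e he).1 hj.symm
      · by_cases h3 : ∃ j : Fin M, (pq c (y * w) j).2 = ω.1 e.1 e.2.1
        · obtain ⟨j, hj⟩ := h3
          have hjT : j ∉ T2 := fun h4 => h' ⟨⟨j, h4⟩, hj⟩
          rw [← hT, mem_cw] at hjT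
          rw [← hj, sw_snd hτ]
          exact (quiet D ω _ (pq_ne c _ j j) hjT e he).2 hj.symm
        · push_neg at h2 h3
          rw [sw_off hτ (y * w) _ (fun j => ⟨h2 j, h3 j⟩)]
          rfl

/-- the probability of one value of the special pairs -/
theorem prob_val {κ : Perm (Fin n) → ℝ} {R : ℕ} (hκ : Wise κ R) (c : Pts n M)
    (y : Perm (Fin n)) (T1 T2 : Finset (Fin M)) (hd : Disjoint T1 T2)
    (hR : 2 * (T1.card + T2.card) ≤ R) (w0 : Perm (Fin n)) [DecidableEq (Fin n × Fin n)] :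
    ∑ w ∈ Finset.univ.filter (fun w : Perm (Fin n) =>
      (∀ j ∈ T2, pq c (y * w) j = pq c (y * w0) j) ∧
      ∀ j ∈ T1, pq c (y * w) j = pq c (y * w0) j), κ w ≤
      2 / (n.descFactorial (2 * (T1.card + T2.card)) : ℝ) := by
  classical
  have hcard : Fintype.card (↥(T1 ∪ T2) × Bool) = 2 * (T1.card + T2.card) := by
    rw [Fintype.card_prod, Fintype.card_bool, Fintype.card_coe, Finset.card_union_of_disjoint hd]
    ring
  let E : Fin (2 * (T1.card + T2.card)) ≃ ↥(T1 ∪ T2) × Bool :=
    (Fintype.equivFinOfCardEq hcard).symm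
  let a0 : Fin (2 * (T1.card + T2.card)) ↪ Fin n :=
    ⟨fun i => c (((E i).1 : Fin M), (E i).2), by
      intro i i' h
      have h1 := c.injective h
      apply E.injective
      have h2 : ((E i).1 : Fin M) = ((E i').1 : Fin M) := congrArg Prod.fst h1
      have h3 : (E i).2 = (E i').2 := by
        have h4 := congrArg Prod.snd h1
        exact h4
      exact Prod.ext (Subtype.ext h2) h3⟩
  let a1 : Fin (2 * (T1.card + T2.card)) ↪ Fin n := a0.trans ((y * w0)⁻¹ : Perm (Fin n)).toEmbedding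
  let b1 : Fin (2 * (T1.card + T2.card)) ↪ Fin n := a0.trans (y⁻¹ : Perm (Fin n)).toEmbedding
  refine le_trans ?_ (hκ.wise _ hR a1 b1)
  refine Finset.sum_le_sum_of_subset_of_nonneg ?_ (fun g _ _ => hκ.nonneg g)
  intro w hw
  rw [Finset.mem_filter] at hw ⊢
  refine ⟨Finset.mem_univ _, ?_⟩
  intro i
  have hj : pq c (y * w) ((E i).1 : Fin M) = pq c (y * w0) ((E i).1 : Fin M) := by
    rcases Finset.mem_union.1 (E i).1.2 with h | h
    · exact hw.2.2 _ h
    · exact hw.2.1 _ h
  show w ((y * w0)⁻¹ (c (((E i).1 : Fin M), (E i).2))) = y⁻¹ (c (((E i).1 : Fin M), (E i).2))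
  have hv : (y * w0)⁻¹ (c (((E i).1 : Fin M), (E i).2)) =
      (y * w)⁻¹ (c (((E i).1 : Fin M), (E i).2)) := by
    rcases hs : (E i).2 with _ | _
    · exact (congrArg Prod.fst hj).symm
    · exact (congrArg Prod.snd hj).symm
  rw [hv, mul_inv_rev]
  exact w.apply_symm_apply _

/-- **E1A** -/
theorem e1a : E1AStmt := by
  intro n b m M R κ hκ c y τ hτ D S hS σ B2 hσ hSc ω hB T1 T2 hR ev hev hdec
  classical
  have hB2 : 0 ≤ B2 := le_trans (Nat.cast_nonneg _) hB
  have hV0 : (0 : ℝ) ≤ (m : ℝ) ^ 2 * b * σ := by positivity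
  have hF0 : (0 : ℝ) ≤ 2 / (n.descFactorial (2 * (T1.card + T2.card)) : ℝ) := by positivity
  have hrhs : (0 : ℝ) ≤ 2 * (B2 ^ T2.card * ((m : ℝ) ^ 2 * b * σ) ^ T1.card) /
      (n.descFactorial (2 * (T1.card + T2.card)) : ℝ) := by positivity
  by_cases hne : ∃ w, ev w
  swap
  · push_neg at hne
    have h0 : ∑ w, κ w * (if ev w then (1 : ℝ) else 0) = 0 := by
      refine Finset.sum_eq_zero fun w _ => ?_
      rw [if_neg (hne w), mul_zero]
    rw [h0]
    exact hrhs
  -- the two sets are disjoint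
  have hd : Disjoint T1 T2 := by
    rw [Finset.disjoint_left]
    intro j h1 h2
    obtain ⟨w, hw⟩ := hne
    obtain ⟨h3, h4⟩ := hev w hw
    have h5 := h4 h1
    rw [mem_PR, mem_W0_dact, ← pq_mul] at h5
    rw [← h3, mem_cw, mem_W2] at h2
    exact h2.2 h5.1
  -- the values
  let val : Perm (Fin n) → ((↥T2 → Fin n × Fin n) × (↥T1 → Fin n × Fin n)) := fun w =>
    (fun j => pq c (y * w) j, fun j => pq c (y * w) j)
  let TT : Finset ((↥T2 → Fin n × Fin n) × (↥T1 → Fin n × Fin n)) :=
    (Finset.univ.filter fun w => ev w).image val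
  have hsum : ∑ w, κ w * (if ev w then (1 : ℝ) else 0) =
      ∑ w ∈ Finset.univ.filter (fun w => ev w), κ w := by
    rw [Finset.sum_filter]
    refine Finset.sum_congr rfl fun w _ => ?_
    by_cases h : ev w
    · rw [if_pos h, if_pos h, mul_one]
    · rw [if_neg h, if_neg h, mul_zero]
  rw [hsum]
  have hfib : ∑ w ∈ Finset.univ.filter (fun w => ev w), κ w =
      ∑ x ∈ TT, ∑ w ∈ (Finset.univ.filter (fun w => ev w)).filter (fun w => val w = x), κ w := by
    rw [Finset.sum_fiberwise_of_maps_to]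
    intro w hw
    exact Finset.mem_image_of_mem _ hw
  rw [hfib]
  have hone : ∀ x ∈ TT, ∑ w ∈ (Finset.univ.filter (fun w => ev w)).filter (fun w => val w = x),
      κ w ≤ 2 / (n.descFactorial (2 * (T1.card + T2.card)) : ℝ) := by
    intro x hx
    obtain ⟨w0, hw0, rfl⟩ := Finset.mem_image.1 hx
    refine le_trans ?_ (prob_val hκ c y T1 T2 hd hR w0)
    refine Finset.sum_le_sum_of_subset_of_nonneg ?_ (fun g _ _ => hκ.nonneg g)
    intro w hw
    rw [Finset.mem_filter] at hw ⊢
    refine ⟨Finset.mem_univ _, ?_, ?_⟩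
    · intro j hj
      exact congrFun (congrArg Prod.fst hw.2) ⟨j, hj⟩
    · intro j hj
      exact congrFun (congrArg Prod.snd hw.2) ⟨j, hj⟩
  refine (Finset.sum_le_sum hone).trans ?_
  rw [Finset.sum_const, nsmul_eq_mul]
  -- the number of values
  have hcard : (TT.card : ℝ) ≤ B2 ^ T2.card * ((m : ℝ) ^ 2 * b * σ) ^ T1.card := by
    let A2 : Finset (↥T2 → Fin n × Fin n) := Fintype.piFinset fun _ => W2 D ω
    let A1 : (↥T2 → Fin n × Fin n) → Finset (↥T1 → Fin n × Fin n) := fun x =>
      Fintype.piFinset fun _ => Vs S ω (uh T2 ω x)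
    have hsub : TT ⊆ (A2.sigma A1).image fun q => (q.1, q.2) := by
      intro x hx
      obtain ⟨w, hw, rfl⟩ := Finset.mem_image.1 hx
      rw [Finset.mem_filter] at hw
      obtain ⟨h3, h4⟩ := hev w hw.2
      rw [Finset.mem_image]
      refine ⟨⟨(val w).1, (val w).2⟩, ?_, rfl⟩
      rw [Finset.mem_sigma]
      constructor
      · rw [Fintype.mem_piFinset]
        intro j
        have hj := j.2
        have hj' : (j : Fin M) ∈ cw c (y * w) (W2 D ω) := by
          rw [h3]
          exact hj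
        rw [mem_cw] at hj'
        exact hj'
      · rw [Fintype.mem_piFinset]
        intro j
        have hj := h4 j.2
        rw [mem_PR] at hj
        obtain ⟨h5, e, a', h6, h7, h8, h9⟩ := hj
        have h10 : S e (U (mv y τ (dact w ω))) = S e (uh T2 ω (val w).1) :=
          hS e _ _ fun d hd => uh_eq hτ y w D ω T2 h3 d hd
        rw [h10] at h9
        unfold Vs
        rw [Finset.mem_image]
        refine ⟨⟨e, a'⟩, ?_, ?_⟩
        · rw [Finset.mem_sigma]
          exact ⟨Finset.mem_univ _, h9⟩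
        · rw [dact_fst, eq_inv_iff] at h7
          rw [dact_snd, eq_inv_iff] at h8
          show (ω.1 e.1 e.2.1, ω.2 e.2.2 a') = pq c (y * w) j
          rw [pq_mul, h7, h8]
    have h1 : (TT.card : ℝ) ≤ ((A2.sigma A1).card : ℝ) := by
      exact_mod_cast (Finset.card_le_card hsub).trans Finset.card_image_le
    refine h1.trans ?_
    rw [Finset.card_sigma]
    push_cast
    have h2 : ∀ x ∈ A2, ((A1 x).card : ℝ) ≤ ((m : ℝ) ^ 2 * b * σ) ^ T1.card := by
      intro x _
      show ((Fintype.piFinset fun _ : ↥T1 => Vs S ω (uh T2 ω x)).card : ℝ) ≤ _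
      rw [Fintype.card_piFinset, Finset.prod_const, Finset.card_univ, Fintype.card_coe]
      push_cast
      exact pow_le_pow_left₀ (Nat.cast_nonneg _) (card_Vs S ω _ σ hσ hSc) _
    refine (Finset.sum_le_sum h2).trans ?_
    rw [Finset.sum_const, nsmul_eq_mul]
    refine mul_le_mul_of_nonneg_right ?_ (pow_nonneg hV0 _)
    show ((Fintype.piFinset fun _ : ↥T2 => W2 D ω).card : ℝ) ≤ _
    rw [Fintype.card_piFinset, Finset.prod_const, Finset.card_univ, Fintype.card_coe]
    push_cast
    exact pow_le_pow_left₀ (Nat.cast_nonneg _) hB _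
  calc (TT.card : ℝ) * (2 / (n.descFactorial (2 * (T1.card + T2.card)) : ℝ))
      ≤ (B2 ^ T2.card * ((m : ℝ) ^ 2 * b * σ) ^ T1.card) *
        (2 / (n.descFactorial (2 * (T1.card + T2.card)) : ℝ)) :=
        mul_le_mul_of_nonneg_right hcard hF0
    _ = _ := by ring

end Pool.Agent.Helper76.FS
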